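import Pool.Agent.H82.ND.Zer
import Pool.Agent.H82.ND.Two5

/-!
# MP_847925_lc: in every group of ratios all but finitely many bases are decided

An input `p = ((x₁, y₁, z₁), (x₂, y₂, z₂))` stands for the upper triangular matrices
`(x₁ y₁; 0 z₁)`, `(x₂ y₂; 0 z₂)` over `ℕ`; for positive diagonal entries its ratios are
`a = x₁ / z₁` and `b = x₂ / z₂`. The decision problem is only open for positive diagonal entries.

1. There is an algorithm for all inputs which never errs and which, for every group `G`, gives no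
   answer for only finitely many pairs `(a, b)` of ratios generating `G`.
2. For every group `G` there is an algorithm which decides all inputs whose ratios generate `G`.
3. The criterion behind 1 and 2. Let `T` be a finite set of primes containing all primes of `a` and
   `b`, let `P` be the product of `T`, let `M` and `m` be the largest absolute values of the
   exponents of `a` and of `b`, and let `D` be a bound for the absolute values of the `2 × 2` minors
   of the matrix of exponents. If `P ^ D * m ^ m * M ^ M < (m + M) ^ (m + M)`, then every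
   noncommuting pair with the ratios `a`, `b` is free if some prime divides `a` and `b` with
   exponents of the same sign, and otherwise no pair with the ratios `a`, `b` is free. For given `T`
   and `D` this dichotomy holds for all but finitely many pairs `a ≠ 1`, `b ≠ 1`.
4. For `T = {2, 3}` and `D = 3` there are no exceptions except those covered by the classical real
   criteria `a + b ≤ 1` and `1 / a + 1 / b ≤ 1`.
5. For `T = {2, 3, 5}` and `D = 1` there are no exceptions except those and the ratios on the same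
   side of `1` without an inverse prime, for which all noncommuting pairs are free.
-/

set_option autoImplicit false

namespace Pool.Agent.Results.MP_847925_lc.NearlyDependent

open Pool.Agent.H82.ND Pool.Agent.H49.FD Pool.Agent.H54.Free

theorem result :
    -- 1. one algorithm for all inputs
    (∃ f : Inp → Option Bool, Computable f ∧
      (∀ p : Inp, (f p = some true → FreeInp p) ∧ (f p = some false → ¬ FreeInp p)) ∧
      ∀ G : Set ℚ, {x : ℚ × ℚ | ∃ p : Inp, gen (rat1 p) (rat2 p) = G ∧ f p = none ∧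
        x = (rat1 p, rat2 p)}.Finite) ∧
    -- 2. for every group a complete algorithm
    (∀ G : Set ℚ, ∃ f : Inp → Bool, Computable f ∧
      ∀ p : Inp, (PosInp p → gen (rat1 p) (rat2 p) = G) → (f p = true ↔ FreeInp p)) ∧
    -- 3. the criterion, and finitely many exceptions for given primes and given bound of the minors
    (∀ (T : Finset ℕ) (a b : ℚ) (D : ℕ), (∀ ℓ ∈ T, ℓ.Prime) → 0 < a → 0 < b → TUnit T a →
      TUnit T b → Minors T a b D →
      (∏ ℓ ∈ T, ℓ) ^ D * (mx T b ^ mx T b * mx T a ^ mx T a) <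
        (mx T b + mx T a) ^ (mx T b + mx T a) →
      ((∃ ℓ ∈ T, 0 < padicValRat ℓ a * padicValRat ℓ b) → AlwaysFree a b) ∧
      ((∀ ℓ ∈ T, padicValRat ℓ a * padicValRat ℓ b ≤ 0) → NeverFree a b)) ∧
    (∀ (T : Finset ℕ) (D : ℕ), (∀ ℓ ∈ T, ℓ.Prime) →
      {x : ℚ × ℚ | 0 < x.1 ∧ 0 < x.2 ∧ x.1 ≠ 1 ∧ x.2 ≠ 1 ∧ TUnit T x.1 ∧ TUnit T x.2 ∧
        Minors T x.1 x.2 D ∧
        ¬ (((∃ ℓ ∈ T, 0 < padicValRat ℓ x.1 * padicValRat ℓ x.2) → AlwaysFree x.1 x.2) ∧
          ((∀ ℓ ∈ T, padicValRat ℓ x.1 * padicValRat ℓ x.2 ≤ 0) → NeverFree x.1 x.2))}.Finite) ∧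
    -- 4. the primes 2 and 3
    (∀ i j k l : ℤ, |i * l - j * k| ≤ 3 → (i, j) ≠ (0, 0) → (k, l) ≠ (0, 0) →
      ∀ a b : ℚ, a = 2 ^ i * 3 ^ j → b = 2 ^ k * 3 ^ l →
      ((0 < i * k ∨ 0 < j * l ∨ a + b ≤ 1 ∨ 1 / a + 1 / b ≤ 1) → AlwaysFree a b) ∧
      (¬ (0 < i * k ∨ 0 < j * l ∨ a + b ≤ 1 ∨ 1 / a + 1 / b ≤ 1) → NeverFree a b)) ∧
    -- 5. the primes 2, 3 and 5
    (∀ i j k i' j' k' : ℤ, |i * j' - j * i'| ≤ 1 → |i * k' - k * i'| ≤ 1 →
      |j * k' - k * j'| ≤ 1 → (i, j, k) ≠ (0, 0, 0) → (i', j', k') ≠ (0, 0, 0) →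
      ∀ a b : ℚ, a = 2 ^ i * 3 ^ j * 5 ^ k → b = 2 ^ i' * 3 ^ j' * 5 ^ k' →
      ((0 < i * i' ∨ 0 < j * j' ∨ 0 < k * k' ∨ a + b ≤ 1 ∨ 1 / a + 1 / b ≤ 1 ∨
        (0 < (a - 1) * (b - 1) ∧ 0 ≤ i * i' ∧ 0 ≤ j * j' ∧ 0 ≤ k * k')) → AlwaysFree a b) ∧
      (¬ (0 < i * i' ∨ 0 < j * j' ∨ 0 < k * k' ∨ a + b ≤ 1 ∨ 1 / a + 1 / b ≤ 1 ∨
        (0 < (a - 1) * (b - 1) ∧ 0 ≤ i * i' ∧ 0 ≤ j * j' ∧ 0 ≤ k * k')) → NeverFree a b)) := by
  have h1 : ∀ (T : Finset ℕ) (a b : ℚ) (D : ℕ), (∀ ℓ ∈ T, ℓ.Prime) → 0 < a → 0 < b → TUnit T a →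
      TUnit T b → Minors T a b D →
      (∏ ℓ ∈ T, ℓ) ^ D * (mx T b ^ mx T b * mx T a ^ mx T a) <
        (mx T b + mx T a) ^ (mx T b + mx T a) →
      ((∃ ℓ ∈ T, 0 < padicValRat ℓ a * padicValRat ℓ b) → AlwaysFree a b) ∧
      ((∀ ℓ ∈ T, padicValRat ℓ a * padicValRat ℓ b ≤ 0) → NeverFree a b) := by
    intro T a b D hT ha hb hTa hTb hD h
    refine ⟨?_, fun hno => never_of_minors hT ha hb hTa hTb hD h hno⟩
    rintro ⟨ℓ, hℓ, h2⟩
    exact always_of_common (hT ℓ hℓ) ha hb h2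
  refine ⟨⟨algA, prim_algA.to_comp, algA_sound, algA_finite⟩, decidable_groupA, h1, ?_, ?_, ?_⟩
  · intro T D hT
    refine (finite_exceptions hT D).subset ?_
    rintro ⟨a, b⟩ ⟨ha, hb, ha1, hb1, hTa, hTb, hD, hn⟩
    refine ⟨ha, hb, ha1, hb1, hTa, hTb, hD, fun hdec => hn ?_⟩
    rcases hdec with ⟨⟨ℓ, hℓ, h2⟩, h3⟩ | ⟨h2, h3⟩
    · exact ⟨fun _ => h3, fun h4 => absurd (h4 ℓ hℓ) (not_le.2 h2)⟩
    · refine ⟨?_, fun _ => h3⟩
      rintro ⟨ℓ, hℓ, h4⟩
      exact absurd (h2 ℓ hℓ) (not_le.2 h4)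
  · intro i j k l hD hij hkl a b ha hb
    have ha' : a = r23 i j := ha
    have hb' : b = r23 k l := hb
    subst ha' hb'
    have hD' : (i * l - j * k).natAbs ≤ 3 := by
      have := hD
      rw [Int.abs_eq_natAbs] at this
      exact_mod_cast this
    exact ⟨fun h => always23 h, fun h => never23 hD' hij hkl h⟩
  · intro i j k i' j' k' h12 h13 h23 hij hkl a b ha hb
    have ha' : a = r5 i j k := ha
    have hb' : b = r5 i' j' k' := hb
    subst ha' hb'
    exact ⟨fun h => always5 h, fun h => never5 h12 h13 h23 hij hkl h⟩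

end Pool.Agent.Results.MP_847925_lc.NearlyDependent
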