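import Pool.Agent.H54.Free.Stair

/-!
# Pairs of upper triangular matrices whose diagonal ratios are not separated by any place

For `M₁ = (x₁ y₁; 0 z₁)`, `M₂ = (x₂ y₂; 0 z₂)` with natural entries, positive diagonals and
`M₁ M₂ ≠ M₂ M₁`, put `a = x₁ / z₁`, `b = x₂ / z₂`.

(i) If `a, b` are both `< 1` or both `> 1`, and for every prime `ℓ` the valuations of `a` and `b`
do not have strictly opposite signs, then `M₁, M₂` generate a free semigroup.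

(ii) If `a, b` are both `< 1` or both `> 1` and `M₁, M₂` do not generate a free semigroup, there is
a finite certificate, for which there are only finitely many candidates: a staircase region.
-/

set_option autoImplicit false

namespace Pool.Agent.Results.MP_847925_lc.NoSeparatingPlace

open Pool.Agent.H54.Free

theorem result :
    (∀ x₁ y₁ z₁ x₂ y₂ z₂ : ℕ, 0 < x₁ → 0 < z₁ → 0 < x₂ → 0 < z₂ →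
      (!![x₁, y₁; 0, z₁] : Matrix (Fin 2) (Fin 2) ℕ) * !![x₂, y₂; 0, z₂] ≠
        !![x₂, y₂; 0, z₂] * !![x₁, y₁; 0, z₁] →
      0 < ((x₁ : ℤ) - z₁) * ((x₂ : ℤ) - z₂) →
      (∀ ℓ : ℕ, ℓ.Prime → 0 ≤ ((padicValNat ℓ x₁ : ℤ) - padicValNat ℓ z₁) *
        ((padicValNat ℓ x₂ : ℤ) - padicValNat ℓ z₂)) →
      FreePair x₁ y₁ z₁ x₂ y₂ z₂) ∧
    (∀ x₁ y₁ z₁ x₂ y₂ z₂ p₁ q₁ p₂ q₂ : ℕ, 0 < x₁ → 0 < z₁ → 0 < x₂ → 0 < z₂ →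
      (!![x₁, y₁; 0, z₁] : Matrix (Fin 2) (Fin 2) ℕ) * !![x₂, y₂; 0, z₂] ≠
        !![x₂, y₂; 0, z₂] * !![x₁, y₁; 0, z₁] →
      0 < p₁ → p₁ < q₁ → Nat.Coprime p₁ q₁ → 0 < p₂ → p₂ < q₂ → Nat.Coprime p₂ q₂ →
      ((x₁ * q₁ = p₁ * z₁ ∧ x₂ * q₂ = p₂ * z₂) ∨ (z₁ * q₁ = p₁ * x₁ ∧ z₂ * q₂ = p₂ * x₂)) →
      ¬ FreePair x₁ y₁ z₁ x₂ y₂ z₂ →
      ∃ (x y : ℕ) (s t : ℕ → ℕ), 1 ≤ x ∧ 1 ≤ y ∧ Monotone s ∧ Monotone t ∧ s 0 = 0 ∧ 1 ≤ t 0 ∧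
        (∀ j < y, s j ≤ t j ∧ t j ≤ x) ∧
        weight p₁ q₁ p₂ q₂ x y s t * ((q₁ - p₁) * (q₂ - p₂)) < p₁ ^ x * p₂ ^ y ∧
        ∀ P₁ P₂ : ℕ, P₁ ∣ p₁ → Nat.Coprime P₁ q₂ → P₂ ∣ p₂ → Nat.Coprime P₂ q₁ →
          P₁ ^ x * P₂ ^ y ∣ weight p₁ q₁ p₂ q₂ x y s t) :=
  ⟨fun _ _ _ _ _ _ hx₁ hz₁ hx₂ hz₂ hnc hreal hp =>
      free_of_places hx₁ hz₁ hx₂ hz₂ hnc hreal hp,
    fun _ _ _ _ _ _ _ _ _ _ hx₁ hz₁ hx₂ hz₂ hnc hp₁ hpq₁ hc₁ hp₂ hpq₂ hc₂ hr hnf =>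
      staircase hx₁ hz₁ hx₂ hz₂ hp₁ hpq₁ hc₁ hp₂ hpq₂ hc₂ hr hnc hnf⟩

end Pool.Agent.Results.MP_847925_lc.NoSeparatingPlace
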