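import Pool.Agent.H49.FD.LocClos

/-!
# MP_847925_lc: the one-place criteria for freeness are sharp

Two upper triangular matrices `(x₁ y₁; 0 z₁)`, `(x₂ y₂; 0 z₂)` over `ℕ` with positive diagonal
entries have the diagonal ratios `a = x₁ / z₁` and `b = x₂ / z₂`. The classical criteria say that
a noncommuting pair generates a free semigroup if `a + b ≤ 1` or `1 / a + 1 / b ≤ 1`, or if at
some prime `ℓ` both ratios have a positive valuation or both have a negative valuation.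

1. a pigeonhole criterion for a pair which is not free;
2. the closure in `(0, ∞)²` of the set of the ratios `(a, b)` of the pairs which are not free is
   exactly the complement of the interior of the set given by the criterion at the real place;
   the same holds for the ratios with given residues modulo `m`, and the ratios of free pairs with
   given residues are dense;
3. the same at every prime `ℓ`.
-/

set_option autoImplicit false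

namespace Pool.Agent.Results.MP_847925_lc.OnePlaceSharp

open Pool.Agent.H49.FD Pool.Agent.H54.Free

theorem result :
    -- 1. the pigeonhole criterion
    (∀ x₁ y₁ z₁ x₂ y₂ z₂ S K : ℕ, 0 < x₁ → 0 < z₁ → 0 < x₂ → 0 < z₂ →
      max (x₁ ^ S * x₂ ^ K) (z₁ ^ S * z₂ ^ K) <
        (S + K).choose K * Nat.gcd (x₁ ^ S * x₂ ^ K) (z₁ ^ S * z₂ ^ K) →
      ¬ FreePair x₁ y₁ z₁ x₂ y₂ z₂) ∧
    -- 2. the real place, with residues modulo `m`
    (∀ (a₀ b₀ : ℝ), 0 < a₀ → 0 < b₀ → ∀ (m : ℕ) (u v : ℤ), 0 < m → IsCoprime u m →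
      IsCoprime v m →
      ((∀ ε : ℝ, 0 < ε → ∃ a b : ℚ, 0 < a ∧ 0 < b ∧ |(a : ℝ) - a₀| < ε ∧ |(b : ℝ) - b₀| < ε ∧
          (m : ℤ) ∣ a.num - u * a.den ∧ (m : ℤ) ∣ b.num - v * b.den ∧
          MulIndep a b ∧ NeverFree a b) ↔
        1 ≤ a₀ + b₀ ∧ 1 ≤ 1 / a₀ + 1 / b₀) ∧
      (∀ ε : ℝ, 0 < ε → ∃ a b : ℚ, 0 < a ∧ 0 < b ∧ |(a : ℝ) - a₀| < ε ∧ |(b : ℝ) - b₀| < ε ∧
          (m : ℤ) ∣ a.num - u * a.den ∧ (m : ℤ) ∣ b.num - v * b.den ∧ AlwaysFree a b)) ∧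
    -- 3. the primes
    (∀ (ℓ : ℕ) [Fact ℓ.Prime] (a₁ b₁ : ℚ_[ℓ]), a₁ ≠ 0 → b₁ ≠ 0 →
      ((∀ ε : ℝ, 0 < ε → ∃ a b : ℚ, 0 < a ∧ 0 < b ∧ ‖(a : ℚ_[ℓ]) - a₁‖ < ε ∧
          ‖(b : ℚ_[ℓ]) - b₁‖ < ε ∧ MulIndep a b ∧ NeverFree a b) ↔
        ¬ (‖a₁‖ < 1 ∧ ‖b₁‖ < 1) ∧ ¬ (1 < ‖a₁‖ ∧ 1 < ‖b₁‖)) ∧
      (∀ ε : ℝ, 0 < ε → ∃ a b : ℚ, 0 < a ∧ 0 < b ∧ ‖(a : ℚ_[ℓ]) - a₁‖ < ε ∧
          ‖(b : ℚ_[ℓ]) - b₁‖ < ε ∧ AlwaysFree a b)) := by
  refine ⟨fun x₁ y₁ z₁ x₂ y₂ z₂ S K h1 h2 h3 h4 h5 => not_free_of_height h1 h2 h3 h4 h5, ?_, ?_⟩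
  · intro a₀ b₀ ha hb m u v hm hu hv
    have : NeZero m := ⟨hm.ne'⟩
    obtain ⟨U, hU⟩ := (ZMod.coe_int_isUnit_iff_isCoprime u m).2 hu.symm
    obtain ⟨V, hV⟩ := (ZMod.coe_int_isUnit_iff_isCoprime v m).2 hv.symm
    have back : ∀ (t : ℚ) (w : ℤ) (W : (ZMod m)ˣ), (W : ZMod m) = w →
        (m : ℤ) ∣ t.num - w * t.den → Res m t W := by
      intro t w W hW h
      unfold Res
      rw [hW]
      have h1 := (ZMod.intCast_zmod_eq_zero_iff_dvd (t.num - w * t.den) m).2 h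
      push_cast at h1
      linear_combination h1
    refine ⟨?_, ?_⟩
    · rw [← closure_iff ha hb U V]
      constructor
      · intro h ε hε
        obtain ⟨a, b, a0, b0, a1, b1, ra, rb, hi, hn⟩ := h ε hε
        exact ⟨a, b, a0, b0, a1, b1, hi, back a u U hU ra, back b v V hV rb, hn⟩
      · intro h ε hε
        obtain ⟨a, b, a0, b0, a1, b1, hi, ra, rb, hn⟩ := h ε hε
        exact ⟨a, b, a0, b0, a1, b1, ra.dvd hU.symm, rb.dvd hV.symm, hi, hn⟩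
    · intro ε hε
      obtain ⟨a, b, a0, b0, a1, b1, ra, rb, hn⟩ := dense_always ha hb hε U V
      exact ⟨a, b, a0, b0, a1, b1, ra.dvd hU.symm, rb.dvd hV.symm, hn⟩
  · intro ℓ hℓ a₁ b₁ ha hb
    exact ⟨closure_p_iff ha hb, fun ε hε => dense_always_p ha hb hε⟩

end Pool.Agent.Results.MP_847925_lc.OnePlaceSharp
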