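import Pool.Agent.H54.Free.Density

/-!
# Almost all pairs of upper triangular matrices on the same side generate a free semigroup

A triple `(x, y, z)` stands for the matrix `(x y; 0 z)`.  `Box H` is the set of these matrices with
`1 ≤ x, z ≤ H` and `0 ≤ y ≤ H`, and `Same M M'` says that the quotients `x / z` of `M` and `M'` are
both `< 1` or both `> 1`.
-/

set_option autoImplicit false

open Filter Finset

namespace Pool.Agent.Results.MP_847925_lc.SameSideAlmostAll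

open Pool.Agent.H54.Free

open Classical in
theorem result :
    -- for fixed `M`, all but `O(H ^ (2 + ε))` of the matrices are free with `M`
    (∀ M : ℕ × ℕ × ℕ, 0 < M.1 → 0 < M.2.2 → M.1 ≠ M.2.2 → ∀ ε : ℝ, 0 < ε →
      ∃ C : ℝ, ∀ H : ℕ,
        (#{M' ∈ Box H | Same M M' ∧ ¬ IsFree M M'} : ℝ) ≤ C * (H : ℝ) ^ (2 + ε)) ∧
    -- the exponent is optimal
    (∀ M : ℕ × ℕ × ℕ, 0 < M.1 → 0 < M.2.2 → M.1 ≠ M.2.2 →
      ∃ c : ℝ, 0 < c ∧ ∃ H₀ : ℕ, ∀ H ≥ H₀,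
        c * (H : ℝ) ^ 2 ≤ (#{M' ∈ Box H | Same M M' ∧ ¬ IsFree M M'} : ℝ)) ∧
    -- density zero among all pairs
    Tendsto (fun H : ℕ =>
      (#{P ∈ Box H ×ˢ Box H | Same P.1 P.2 ∧ ¬ IsFree P.1 P.2} : ℝ) / (H : ℝ) ^ 6)
      atTop (nhds 0) :=
  ⟨fun _ h1 h2 h3 _ hε => fixed hε h1 h2 h3, fun _ h1 h2 h3 => lower h1 h2 h3, density⟩

end Pool.Agent.Results.MP_847925_lc.SameSideAlmostAll
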